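import Mathlib
import Pool.Agent.TH751.TheonDefs

/-!
# Generic Borel choice of the higher coordinates

For almost every parameter `c` the map `lift c`, which keeps the coordinates of the singletons and
gives to a set `A` of at least two vertices the coordinate `frac (∑ c_j s_A^j)`, where `s_A` is the
sum of the vertices in `A`, avoids a given null set for almost every tuple of vertices.
-/

set_option autoImplicit false

open MeasureTheory Set
open Pool.Agent.TH751.Theon (EV pull diag sing NESub)

namespace Pool.Agent.K6.H41.BT.Lift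

noncomputable section

/-- fractional part, as a point of `[0,1]` -/
def fr (t : ℝ) : unitInterval := ⟨Int.fract t, Int.fract_nonneg t, (Int.fract_lt_one t).le⟩

lemma measurable_fr : Measurable fr := measurable_fract.subtype_mk

/-- the sum of the vertices in `A` -/
def vs {V : Type} (v : V → unitInterval) (A : Finset V) : ℝ := ∑ i ∈ A, (v i : ℝ)

/-- the lift -/
def lift {n : ℕ} (c : Fin n → ℝ) {V : Type} (v : V → unitInterval) : EV V := fun A =>
  if A.1.card = 1 then projIcc 0 1 zero_le_one (vs v A.1)
  else fr (∑ j, c j * vs v A.1 ^ (j : ℕ))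

lemma lift_sing {n : ℕ} (c : Fin n → ℝ) {V : Type} (v : V → unitInterval) (i : V) :
    lift c v (sing i) = v i := by
  have h : ((sing i).1 : Finset V) = {i} := rfl
  simp only [lift, h, Finset.card_singleton, if_true, vs, Finset.sum_singleton]
  exact projIcc_of_mem zero_le_one (v i).2

lemma pull_lift {n : ℕ} (c : Fin n → ℝ) {V W : Type} (α : W ↪ V) (v : V → unitInterval) :
    pull α (lift c v) = lift c (fun i => v (α i)) := by
  funext A
  simp only [pull, lift, Finset.card_map, vs, Finset.sum_map]

lemma measurable_vs {V : Type} (A : Finset V) :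
    Measurable (fun v : V → unitInterval => vs v A) := by
  unfold vs
  exact Finset.measurable_sum _ fun i _ => measurable_subtype_coe.comp (measurable_pi_apply i)

lemma measurable_lift2 {n : ℕ} {V : Type} :
    Measurable (fun p : (Fin n → ℝ) × (V → unitInterval) => lift p.1 p.2) := by
  rw [measurable_pi_iff]
  intro A
  unfold lift
  by_cases h : A.1.card = 1
  · simp only [h, if_true]
    exact continuous_projIcc.measurable.comp ((measurable_vs A.1).comp measurable_snd)
  · simp only [h, if_false]
    refine measurable_fr.comp (Finset.measurable_sum _ fun j _ => ?_)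
    exact ((measurable_pi_apply j).comp measurable_fst).mul
      (((measurable_vs A.1).comp measurable_snd).pow_const _)

lemma measurable_lift {n : ℕ} (c : Fin n → ℝ) {V : Type} :
    Measurable (fun v : V → unitInterval => lift c v) :=
  measurable_lift2.comp (measurable_const.prodMk measurable_id)

/-! ### marginals -/

lemma mp_comp {ι κ : Type} [Fintype ι] [Fintype κ] (f : κ → ι) (hf : Function.Injective f) :
    MeasurePreserving (fun (x : ι → unitInterval) (j : κ) => x (f j)) volume volume := by
  classical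
  refine ⟨by fun_prop, ?_⟩
  symm
  refine Measure.pi_eq fun s hs => ?_
  have hm : Measurable (fun (x : ι → unitInterval) (j : κ) => x (f j)) := by fun_prop
  rw [Measure.map_apply hm (MeasurableSet.univ_pi hs)]
  have h1 : (fun (x : ι → unitInterval) (j : κ) => x (f j)) ⁻¹' (univ.pi s) =
      univ.pi (Function.extend f s (fun _ => univ)) := by
    ext x
    simp only [mem_preimage, mem_univ_pi]
    constructor
    · intro h i
      by_cases hi : ∃ j, f j = i
      · obtain ⟨j, rfl⟩ := hi
        rw [hf.extend_apply]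
        exact h j
      · rw [Function.extend_apply' _ _ _ hi]
        exact mem_univ _
    · intro h j
      have := h (f j)
      rwa [hf.extend_apply] at this
  rw [h1, volume_pi, Measure.pi_pi]
  rw [← Finset.prod_subset (Finset.subset_univ (Finset.univ.image f))]
  · rw [Finset.prod_image (fun a _ b _ h => hf h)]
    exact Finset.prod_congr rfl fun j _ => by rw [hf.extend_apply]
  · intro i _ hi
    rw [Function.extend_apply' _ _ _ (by simpa using hi)]
    exact measure_univ

lemma mp_val (κ : Type) [Fintype κ] :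
    MeasurePreserving (fun (x : κ → unitInterval) (j : κ) => (x j : ℝ)) volume
      (volume.restrict (univ.pi fun _ => Icc (0 : ℝ) 1)) := by
  have h := measurePreserving_pi (ι := κ) (fun _ => (volume : Measure unitInterval))
    (fun _ => (volume : Measure ℝ).restrict (Icc 0 1)) (f := fun _ => Subtype.val)
    (fun _ => unitInterval.measurePreserving_coe)
  rw [← Measure.restrict_pi_pi] at h
  exact h

/-- coordinatewise fractional part pulls back null sets to null sets -/
lemma null_fr {κ : Type} [Fintype κ] {W : Set (κ → unitInterval)} (hW : volume W = 0) :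
    volume {x : κ → ℝ | (fun j => fr (x j)) ∈ W} = 0 := by
  obtain ⟨W', hWW', hW'm, hW'⟩ := exists_measurable_superset_of_null hW
  have hval := mp_val κ
  set U : Set (κ → ℝ) := {x | (fun j => fr (x j)) ∈ W'} ∩ (univ.pi fun _ => Ico (0 : ℝ) 1) with hU
  have hmF : Measurable (fun (x : κ → ℝ) (j : κ) => fr (x j)) := by
    rw [measurable_pi_iff]
    exact fun j => measurable_fr.comp (measurable_pi_apply j)
  have hUm : MeasurableSet U := (hmF hW'm).inter (MeasurableSet.univ_pi fun _ => measurableSet_Ico)
  have hU0 : volume U = 0 := by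
    have h1 : (volume.restrict (univ.pi fun _ : κ => Icc (0 : ℝ) 1)) U = volume U := by
      rw [Measure.restrict_apply hUm]
      congr 1
      refine inter_eq_left.2 fun x hx j _ => ?_
      exact Ico_subset_Icc_self (hx.2 j (mem_univ j))
    rw [← h1, ← hval.measure_preimage hUm.nullMeasurableSet]
    refine measure_mono_null (fun x hx => ?_) hW'
    have hx1 : (fun j => fr (x j : ℝ)) ∈ W' := hx.1
    have hx2 : (fun j => fr (x j : ℝ)) = x := by
      funext j
      apply Subtype.ext
      have := hx.2 j (mem_univ j)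
      exact Int.fract_eq_self.2 ⟨this.1, this.2⟩
    rwa [hx2] at hx1
  have hcov : {x : κ → ℝ | (fun j => fr (x j)) ∈ W} ⊆
      ⋃ z : κ → ℤ, (fun x : κ → ℝ => (fun j => -(z j : ℝ)) + x) ⁻¹' U := by
    intro x hx
    refine mem_iUnion.2 ⟨fun j => ⌊x j⌋, ?_⟩
    have h1 : ∀ j, -(⌊x j⌋ : ℝ) + x j = Int.fract (x j) := fun j => by
      rw [Int.fract]; ring
    refine ⟨?_, fun j _ => ?_⟩
    · have h2 : (fun j => fr ((fun j => -(⌊x j⌋ : ℝ)) j + x j)) = fun j => fr (x j) := by
        funext j
        apply Subtype.ext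
        simp only [fr]
        rw [h1, Int.fract_fract]
      show (fun j => fr (((fun j => -(⌊x j⌋ : ℝ)) + x) j)) ∈ W'
      simp only [Pi.add_apply]
      rw [h2]
      exact hWW' hx
    · show ((fun j => -(⌊x j⌋ : ℝ)) + x) j ∈ Ico (0 : ℝ) 1
      rw [Pi.add_apply, h1]
      exact ⟨Int.fract_nonneg _, Int.fract_lt_one _⟩
  refine measure_mono_null hcov (measure_iUnion_null fun z => ?_)
  rw [measure_preimage_add]
  exact hU0

/-- for pairwise distinct `s_a`, polynomials in `s_a` with generic coefficients avoid null sets -/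
lemma null_vander {n : ℕ} (s : Fin n → ℝ) (hs : Function.Injective s)
    {W : Set (Fin n → unitInterval)} (hW : volume W = 0) :
    volume {c : Fin n → ℝ | (fun a => fr (∑ j, c j * s a ^ (j : ℕ))) ∈ W} = 0 := by
  have h1 := null_fr hW
  set A : Matrix (Fin n) (Fin n) ℝ := Matrix.vandermonde s with hA
  have hdet : LinearMap.det (Matrix.toLin' A) ≠ 0 := by
    rw [LinearMap.det_toLin']
    exact Matrix.det_vandermonde_ne_zero_iff.2 hs
  have h2 := Measure.addHaar_preimage_linearMap (volume : Measure (Fin n → ℝ)) hdet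
    {x : Fin n → ℝ | (fun j => fr (x j)) ∈ W}
  rw [h1, mul_zero] at h2
  refine measure_mono_null (fun c hc => ?_) h2
  show (fun a => fr ((Matrix.toLin' A) c a)) ∈ W
  have h3 : (fun a => fr ((Matrix.toLin' A) c a)) = fun a => fr (∑ j, c j * s a ^ (j : ℕ)) := by
    funext a
    rw [Matrix.toLin'_apply, Matrix.mulVec, dotProduct]
    congr 1
    exact Finset.sum_congr rfl fun j _ => by rw [hA, Matrix.vandermonde_apply]; ring
  rw [h3]
  exact hc

/-- almost every tuple of vertices has pairwise distinct subset sums -/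
lemma ae_vs_ne {K : ℕ} {A B : Finset (Fin K)} (hAB : A ≠ B) :
    ∀ᵐ v : Fin K → unitInterval, vs v A ≠ vs v B := by
  have h0 : volume {x : Fin K → ℝ | ∑ i ∈ A, x i = ∑ i ∈ B, x i} = 0 := by
    let S : Submodule ℝ (Fin K → ℝ) := LinearMap.ker
      ((∑ i ∈ A, LinearMap.proj i) - (∑ i ∈ B, LinearMap.proj i) : (Fin K → ℝ) →ₗ[ℝ] ℝ)
    have hS : S ≠ ⊤ := by
      intro h
      apply hAB
      ext i
      have h1 : (Pi.single i (1 : ℝ) : Fin K → ℝ) ∈ S := by rw [h]; trivial
      rw [LinearMap.mem_ker, LinearMap.sub_apply, LinearMap.sum_apply, LinearMap.sum_apply] at h1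
      simp only [LinearMap.proj_apply, Pi.single_apply, Finset.sum_ite_eq', Finset.sum_ite_eq] at h1
      by_cases hA : i ∈ A <;> by_cases hB : i ∈ B <;> simp [hA, hB] at h1 ⊢
    refine measure_mono_null (fun x hx => ?_) (Measure.addHaar_submodule volume S hS)
    show x ∈ S
    rw [LinearMap.mem_ker, LinearMap.sub_apply, LinearMap.sum_apply, LinearMap.sum_apply]
    simp only [LinearMap.proj_apply]
    rw [sub_eq_zero]
    exact hx
  have hm : MeasurableSet {x : Fin K → ℝ | ∑ i ∈ A, x i = ∑ i ∈ B, x i} :=
    measurableSet_eq_fun (by fun_prop) (by fun_prop)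
  rw [ae_iff]
  have h1 : {v : Fin K → unitInterval | ¬ (vs v A ≠ vs v B)} =
      (fun (x : Fin K → unitInterval) (j : Fin K) => (x j : ℝ)) ⁻¹'
        {x : Fin K → ℝ | ∑ i ∈ A, x i = ∑ i ∈ B, x i} := by
    ext v
    simp [vs]
  rw [h1, (mp_val (Fin K)).measure_preimage hm.nullMeasurableSet]
  exact nonpos_iff_eq_zero.1 ((Measure.restrict_apply_le _ _).trans h0.le)

/-- the number of coordinates of sets with at least two elements -/
def nn (K : ℕ) : ℕ := Fintype.card {A : NESub (Fin K) // ¬ A.1.card = 1}

/-- the vertex of a singleton -/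
def vtx {K : ℕ} (A : {A : NESub (Fin K) // A.1.card = 1}) : Fin K := A.1.2.choose

lemma vtx_spec {K : ℕ} (A : {A : NESub (Fin K) // A.1.card = 1}) : A.1.1 = {vtx A} := by
  have h1 : vtx A ∈ A.1.1 := A.1.2.choose_spec
  obtain ⟨a, ha⟩ := Finset.card_eq_one.1 A.2
  rw [ha] at h1 ⊢
  rw [Finset.mem_singleton.1 h1]

lemma vtx_injective {K : ℕ} : Function.Injective (vtx (K := K)) := by
  intro A B h
  apply Subtype.ext
  apply Subtype.ext
  rw [vtx_spec A, vtx_spec B, h]

theorem ae_c {K : ℕ} {Z : Set (EV (Fin K))} (hZm : MeasurableSet Z) (hZ : volume Z = 0) :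
    ∀ᵐ c : Fin (nn K) → ℝ, ∀ᵐ v : Fin K → unitInterval, lift c v ∉ Z := by
  classical
  let e := MeasurableEquiv.piEquivPiSubtypeProd (fun _ : NESub (Fin K) => unitInterval)
    (fun A => A.1.card = 1)
  have he : MeasurePreserving e volume volume :=
    volume_preserving_piEquivPiSubtypeProd (fun _ : NESub (Fin K) => unitInterval)
      (fun A => A.1.card = 1)
  let ε : {A : NESub (Fin K) // ¬ A.1.card = 1} ≃ Fin (nn K) := Fintype.equivFin _
  -- almost every section is null
  have h1 : ∀ᵐ u : {A : NESub (Fin K) // A.1.card = 1} → unitInterval,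
      volume {w : {A : NESub (Fin K) // ¬ A.1.card = 1} → unitInterval | e.symm (u, w) ∈ Z} = 0 := by
    have h2 : volume (e.symm ⁻¹' Z) = 0 := by
      rw [he.symm.measure_preimage hZm.nullMeasurableSet, hZ]
    exact (Measure.measure_prod_null (e.symm.measurable hZm)).1 h2
  have h3 : ∀ᵐ v : Fin K → unitInterval,
      volume {w : {A : NESub (Fin K) // ¬ A.1.card = 1} → unitInterval |
        e.symm (fun A => v (vtx A), w) ∈ Z} = 0 :=
    (mp_comp vtx vtx_injective).quasiMeasurePreserving.ae h1
  have h4 : ∀ᵐ v : Fin K → unitInterval, ∀ A B : Finset (Fin K), A ≠ B → vs v A ≠ vs v B := by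
    rw [ae_all_iff]
    intro A
    rw [ae_all_iff]
    intro B
    by_cases hAB : A = B
    · exact Filter.Eventually.of_forall fun v h => absurd hAB h
    · filter_upwards [ae_vs_ne hAB] with v hv _ using hv
  -- for almost every `v`, almost every `c`
  have h5 : ∀ᵐ v : Fin K → unitInterval,
      volume {c : Fin (nn K) → ℝ | lift c v ∈ Z} = 0 := by
    filter_upwards [h3, h4] with v hv hv'
    set Zv : Set ({A : NESub (Fin K) // ¬ A.1.card = 1} → unitInterval) :=
      {w | e.symm (fun A => v (vtx A), w) ∈ Z} with hZv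
    have hZvm : MeasurableSet Zv :=
      (e.symm.measurable.comp (measurable_const.prodMk measurable_id)) hZm
    have hW : volume {w' : Fin (nn K) → unitInterval | (fun A => w' (ε A)) ∈ Zv} = 0 := by
      have := (mp_comp ε ε.injective).measure_preimage hZvm.nullMeasurableSet
      rw [hv] at this
      exact this
    have hs : Function.Injective fun a => vs v ((ε.symm a).1.1) := by
      intro a b hab
      by_contra hne
      refine hv' (ε.symm a).1.1 (ε.symm b).1.1 (fun h => hne ?_) hab
      exact ε.symm.injective (Subtype.ext (Subtype.ext h))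
    refine measure_mono_null (fun c hc => ?_) (null_vander _ hs hW)
    show (fun A => fr (∑ j, c j * vs v ((ε.symm (ε A)).1.1) ^ (j : ℕ))) ∈ Zv
    show e.symm (fun A => v (vtx A), _) ∈ Z
    have h6 : e.symm (fun A => v (vtx A),
        fun A => fr (∑ j, c j * vs v ((ε.symm (ε A)).1.1) ^ (j : ℕ))) = lift c v := by
      funext A
      by_cases hA : A.1.card = 1
      · have h7 : e.symm (fun A => v (vtx A),
          fun A => fr (∑ j, c j * vs v ((ε.symm (ε A)).1.1) ^ (j : ℕ))) A = v (vtx ⟨A, hA⟩) := by
          show (if h : A.1.card = 1 then v (vtx ⟨A, h⟩) else _) = _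
          rw [dif_pos hA]
        rw [h7]
        have h8 : A = sing (vtx ⟨A, hA⟩) := Subtype.ext (vtx_spec ⟨A, hA⟩)
        conv_rhs => rw [h8, lift_sing]
      · have h7 : e.symm (fun A => v (vtx A),
          fun A => fr (∑ j, c j * vs v ((ε.symm (ε A)).1.1) ^ (j : ℕ))) A =
            fr (∑ j, c j * vs v ((ε.symm (ε ⟨A, hA⟩)).1.1) ^ (j : ℕ)) := by
          show (if h : A.1.card = 1 then v (vtx ⟨A, h⟩) else
            fr (∑ j, c j * vs v ((ε.symm (ε ⟨A, h⟩)).1.1) ^ (j : ℕ))) = _
          rw [dif_neg hA]
        rw [h7, Equiv.symm_apply_apply]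
        simp only [lift, hA, if_false]
    rw [h6]
    exact hc
  have hB : MeasurableSet {p : (Fin (nn K) → ℝ) × (Fin K → unitInterval) | lift p.1 p.2 ∈ Z} :=
    measurable_lift2 hZm
  have hB' : MeasurableSet {p : (Fin K → unitInterval) × (Fin (nn K) → ℝ) | lift p.2 p.1 ∈ Z} :=
    hB.preimage measurable_swap
  have h9 : ((volume : Measure (Fin K → unitInterval)).prod
      (volume : Measure (Fin (nn K) → ℝ))) {p | lift p.2 p.1 ∈ Z} = 0 :=
    (Measure.measure_prod_null hB').2 h5
  have h10 : ((volume : Measure (Fin (nn K) → ℝ)).prod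
      (volume : Measure (Fin K → unitInterval))) {p | lift p.1 p.2 ∈ Z} = 0 := by
    rw [← Measure.prod_swap, Measure.map_apply measurable_swap hB]
    exact h9
  filter_upwards [(Measure.measure_prod_null hB).1 h10] with c hc
  rw [ae_iff]
  simpa using hc

/-- **Generic Borel choice of the higher coordinates.** -/
theorem exists_lift (K : ℕ) (Z : ∀ k : ℕ, Set (EV (Fin k))) (hZ : ∀ k, volume (Z k) = 0) :
    ∃ (n : ℕ) (c : Fin n → ℝ), ∀ k ≤ K, ∀ᵐ v : Fin k → unitInterval, lift c v ∉ Z k := by
  classical
  choose Z' h1 h2 h3 using fun k => exists_measurable_superset_of_null (hZ k)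
  have hpull : ∀ (k : ℕ) (hk : k ≤ K), MeasurePreserving
      (fun x : EV (Fin K) => pull (Fin.castLEEmb hk) x) volume volume := by
    intro k hk
    refine mp_comp (fun A : NESub (Fin k) =>
      (⟨A.1.map (Fin.castLEEmb hk), A.2.map⟩ : NESub (Fin K))) ?_
    intro A B h
    exact Subtype.ext (Finset.map_injective _ (Subtype.ext_iff.1 h))
  let S : Set (EV (Fin K)) := ⋃ k : {k : ℕ // k ≤ K}, pull (Fin.castLEEmb k.2) ⁻¹' Z' k.1
  have hSm : MeasurableSet S := MeasurableSet.iUnion fun k => (hpull k.1 k.2).measurable (h2 _)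
  have hS : volume S = 0 := by
    refine measure_iUnion_null fun k => ?_
    rw [(hpull k.1 k.2).measure_preimage (h2 _).nullMeasurableSet]
    exact h3 _
  obtain ⟨c, hc⟩ := (ae_c hSm hS).exists
  refine ⟨nn K, c, fun k hk => ?_⟩
  have hN : MeasurableSet {w : Fin k → unitInterval | lift c w ∈ Z' k} := measurable_lift c (h2 k)
  have h5 : volume {w : Fin k → unitInterval | lift c w ∈ Z' k} = 0 := by
    rw [← (mp_comp (Fin.castLE hk) (Fin.castLE_injective hk)).measure_preimage
      hN.nullMeasurableSet]
    rw [ae_iff] at hc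
    refine measure_mono_null (fun v hv => ?_) hc
    simp only [mem_setOf_eq, not_not]
    refine mem_iUnion.2 ⟨⟨k, hk⟩, ?_⟩
    show pull (Fin.castLEEmb hk) (lift c v) ∈ Z' k
    rw [pull_lift]
    exact hv
  rw [ae_iff]
  refine measure_mono_null (fun v hv => ?_) h5
  simp only [mem_setOf_eq, not_not] at hv
  exact h1 k hv

end

end Pool.Agent.K6.H41.BT.Lift
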