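import Mathlib
import Pool.Agent.T6helper6.BT.Defs

/-!
# Finite pieces of a family of sets and the universal theory of its finite pieces
-/

set_option autoImplicit false

open FirstOrder FirstOrder.Language MeasureTheory Set
open Pool.Agent.TH751.Theon (EV pull diag sing NESub)
open Pool.Agent.T6helper6.BT

namespace Pool.Agent.K6.H41.BT.Logic

variable {L : FirstOrder.Language.{0, 0}}

/-- the disjunction of a list of formulas -/
def bigOr {α : Type} {n : ℕ} {ι : Type} (l : List ι) (f : ι → L.BoundedFormula α n) :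
    L.BoundedFormula α n :=
  (l.map f).foldr (fun a b => a ⊔ b) ⊥

lemma isQF_bigOr {α : Type} {n : ℕ} {ι : Type} (l : List ι) (f : ι → L.BoundedFormula α n)
    (h : ∀ i, (f i).IsQF) : (bigOr l f).IsQF := by
  induction l with
  | nil => exact BoundedFormula.isQF_bot
  | cons a l ih => exact (h a).sup ih

lemma realize_bigOr {α : Type} {n : ℕ} {ι : Type} (l : List ι) (f : ι → L.BoundedFormula α n)
    {V : Type} [L.Structure V] (v : α → V) (xs : Fin n → V) :
    (bigOr l f).Realize v xs ↔ ∃ i ∈ l, (f i).Realize v xs := by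
  induction l with
  | nil => simp [bigOr]
  | cons a l ih =>
    have : bigOr (a :: l) f = f a ⊔ bigOr l f := rfl
    rw [this, BoundedFormula.realize_sup, ih]
    simp

lemma isUniversal_alls {α : Type} : ∀ {n : ℕ} (φ : L.BoundedFormula α n), φ.IsUniversal →
    φ.alls.IsUniversal
  | 0, _, h => h
  | (_ + 1), φ, h => isUniversal_alls φ.all (BoundedFormula.IsUniversal.all h)

/-- the sentence saying that a given finite structure is not realised by distinct elements -/
lemma exists_sentence [Finite (Σ k, L.Relations k)] {m : ℕ} (S : L.Structure (Fin m)) :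
    ∃ φ : L.Sentence, φ.IsUniversal ∧ ∀ (V : Type) (M : L.Structure V),
      @Sentence.Realize L V M φ ↔ ∀ xs : Fin m → V, Function.Injective xs →
        ∃ (k : ℕ) (P : L.Relations k) (α : Fin k ↪ Fin m),
          ¬ (M.RelMap P (fun i => xs (α i)) ↔ S.RelMap P α) := by
  classical
  have : Fintype (Σ p : (Σ k, L.Relations k), (Fin p.1 ↪ Fin m)) := Fintype.ofFinite _
  let e1 : {p : Fin m × Fin m // p.1 ≠ p.2} → L.BoundedFormula Empty m := fun p =>
    (&p.1.1).bdEqual (&p.1.2)
  let at' : (Σ p : (Σ k, L.Relations k), (Fin p.1 ↪ Fin m)) → L.BoundedFormula Empty m := fun q =>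
    q.1.2.boundedFormula fun i => (&(q.2 i))
  let e2 : (Σ p : (Σ k, L.Relations k), (Fin p.1 ↪ Fin m)) → L.BoundedFormula Empty m := fun q =>
    if S.RelMap q.1.2 q.2 then ∼(at' q) else at' q
  let ψ : L.BoundedFormula Empty m :=
    bigOr (Finset.univ.toList) e1 ⊔ bigOr (Finset.univ.toList) e2
  have hat : ∀ q, (at' q).IsQF := fun q => (BoundedFormula.IsAtomic.rel _ _).isQF
  refine ⟨ψ.alls, isUniversal_alls _ (BoundedFormula.IsQF.isUniversal ?_), ?_⟩
  · refine (isQF_bigOr _ _ fun p => (BoundedFormula.IsAtomic.equal _ _).isQF).sup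
      (isQF_bigOr _ _ fun q => ?_)
    by_cases h : S.RelMap q.1.2 q.2
    · simp only [e2, h, if_true]; exact (hat q).not
    · simp only [e2, h, if_false]; exact hat q
  · intro V M
    letI := M
    rw [Sentence.Realize, BoundedFormula.realize_alls]
    apply forall_congr'
    intro xs
    rw [BoundedFormula.realize_sup, realize_bigOr, realize_bigOr]
    have h1 : (∃ i ∈ (Finset.univ : Finset {p : Fin m × Fin m // p.1 ≠ p.2}).toList,
        (e1 i).Realize (default : Empty → V) xs) ↔ ¬ Function.Injective xs := by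
      simp only [Finset.mem_toList, Finset.mem_univ, true_and, e1, BoundedFormula.realize_bdEqual,
        Term.realize_var, Sum.elim_inr]
      constructor
      · rintro ⟨⟨⟨i, j⟩, hij⟩, h⟩ hinj
        exact hij (hinj h)
      · intro h
        rw [Function.Injective] at h
        push Not at h
        obtain ⟨i, j, h1, h2⟩ := h
        exact ⟨⟨⟨i, j⟩, h2⟩, h1⟩
    have h2 : (∃ q ∈ (Finset.univ : Finset (Σ p : (Σ k, L.Relations k),
        (Fin p.1 ↪ Fin m))).toList, (e2 q).Realize (default : Empty → V) xs) ↔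
        ∃ (k : ℕ) (P : L.Relations k) (α : Fin k ↪ Fin m),
          ¬ (M.RelMap P (fun i => xs (α i)) ↔ S.RelMap P α) := by
      have h3 : ∀ q : (Σ p : (Σ k, L.Relations k), (Fin p.1 ↪ Fin m)),
          (e2 q).Realize (default : Empty → V) xs ↔
          ¬ (M.RelMap q.1.2 (fun i => xs (q.2 i)) ↔ S.RelMap q.1.2 q.2) := by
        intro q
        have h4 : (at' q).Realize (default : Empty → V) xs ↔
            M.RelMap q.1.2 (fun i => xs (q.2 i)) := by
          simp only [at', BoundedFormula.realize_rel]
          exact Iff.rfl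
        by_cases h : S.RelMap q.1.2 q.2
        · simp only [e2, h, if_true, BoundedFormula.realize_not, h4, iff_true]
        · simp only [e2, h, if_false, h4, iff_false, not_not]
      simp only [Finset.mem_toList, Finset.mem_univ, true_and, h3]
      constructor
      · rintro ⟨⟨⟨k, P⟩, α⟩, h⟩
        exact ⟨k, P, α, h⟩
      · rintro ⟨k, P, α, h⟩
        exact ⟨⟨⟨k, P⟩, α⟩, h⟩
    rw [h1, h2]
    exact imp_iff_not_or.symm

variable [L.IsRelational]

lemma isCanonical_rel (N : EStr L) {V : Type} (x : EV V) : IsCanonical (rel N x) :=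
  fun _ _ _ h => h.1

lemma relMap_rel (N : EStr L) {V : Type} (x : EV V) {k : ℕ} (P : L.Relations k) (α : Fin k ↪ V) :
    (rel N x).RelMap P α ↔ pull α x ∈ N k P := by
  constructor
  · rintro ⟨h, h'⟩
    exact h'
  · intro h
    exact ⟨α.injective, h⟩

lemma mem_Tind_rel (N : EStr L) {V : Type} (x : EV V) : x ∈ Tind (rel N x) N :=
  fun _ P α => (relMap_rel N x P α).symm

lemma eq_rel {N : EStr L} {V : Type} {M : L.Structure V} (hM : IsCanonical M) {x : EV V}
    (hx : x ∈ Tind M N) : M = rel N x := by
  apply FirstOrder.Language.Structure.ext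
  · ext k f
    exact isEmptyElim f
  · ext k P v
    constructor
    · intro h
      have hv := hM k P v h
      exact ⟨hv, (hx k P ⟨v, hv⟩).2 h⟩
    · rintro ⟨hv, h⟩
      exact (hx k P ⟨v, hv⟩).1 h

lemma model_rel {N N' : EStr L} (hN' : StrongOn (theoryOf N) N') {V : Type} [Finite V] (x : EV V)
    (hx : x ∉ diag V) : @FirstOrder.Language.Theory.Model L V (rel N' x) (theoryOf N) := by
  by_contra h
  exact hx (hN' V (rel N' x) (isCanonical_rel N' x) h (mem_Tind_rel N' x))

/-- every off-diagonal finite piece of a strong on is an off-diagonal finite piece of `N` -/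
theorem diagram [Finite (Σ k, L.Relations k)] {N N' : EStr L} (hN' : StrongOn (theoryOf N) N')
    {m : ℕ} (x : EV (Fin m)) (hx : x ∉ diag (Fin m)) :
    ∃ y : EV (Fin m), y ∉ diag (Fin m) ∧
      ∀ (k : ℕ) (P : L.Relations k) (α : Fin k ↪ Fin m), pull α x ∈ N' k P ↔ pull α y ∈ N k P := by
  by_contra hcon
  push Not at hcon
  obtain ⟨φ, hφ, hreal⟩ := exists_sentence (rel N' x)
  have hmem : φ ∈ theoryOf N := by
    refine ⟨hφ, fun V _ y hy => (hreal V (rel N y)).2 fun xs hxs => ?_⟩
    by_contra hno
    push Not at hno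
    obtain ⟨k, P, α, h⟩ := hcon (pull ⟨xs, hxs⟩ y) (by
      rintro ⟨i, j, hij, h⟩
      refine hy ⟨xs i, xs j, fun h' => hij (hxs h'), ?_⟩
      have hs : ∀ i : Fin m, pull ⟨xs, hxs⟩ y (sing i) = y (sing (xs i)) := by
        intro i
        simp only [pull, sing, Finset.map_singleton, Function.Embedding.coeFn_mk]
      rw [hs, hs] at h
      exact h)
    have h1 : (rel N y).RelMap P (fun i => xs (α i)) ↔ pull α x ∈ N' k P := by
      rw [hno k P α]
      exact relMap_rel N' x P α
    have h2 : (rel N y).RelMap P (fun i => xs (α i)) ↔ pull α (pull ⟨xs, hxs⟩ y) ∈ N k P := by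
      have h3 : pull α (pull ⟨xs, hxs⟩ y) = pull (α.trans ⟨xs, hxs⟩) y := by
        funext A
        simp only [pull]
        congr 1
        apply Subtype.ext
        simp only [Finset.map_map]
      rw [h3]
      exact relMap_rel N y P (α.trans ⟨xs, hxs⟩)
    rcases h with ⟨ha, hb⟩ | ⟨ha, hb⟩
    · exact hb (h2.1 (h1.2 ha))
    · exact ha (h1.1 (h2.2 hb))
  have hmod := model_rel hN' x hx
  have h1 : @Sentence.Realize L (Fin m) (rel N' x) φ :=
    @FirstOrder.Language.Theory.realize_sentence_of_mem L (Fin m) (rel N' x) (theoryOf N) hmod φ hmem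
  obtain ⟨k, P, α, h⟩ := (hreal (Fin m) (rel N' x)).1 h1 id Function.injective_id
  exact h Iff.rfl

/-- `N` itself is a strong on for the universal theory of its finite pieces -/
theorem strongOn_theoryOf (N : EStr L) : StrongOn (theoryOf N) N := by
  intro V _ M hM hmod x hx
  by_contra hxd
  apply hmod
  rw [eq_rel hM hx]
  letI := rel N x
  exact ⟨fun φ hφ => hφ.2 V x hxd⟩

theorem isUniversal_theoryOf (N : EStr L) : (theoryOf N).IsUniversal := ⟨fun _ h => h.1⟩

/-- the universal theory of the finite pieces is canonical -/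
theorem canonicalTheory_theoryOf (N : EStr L) : CanonicalTheory (theoryOf N) := by
  intro V M hM k P v hv i j hij
  by_contra hne
  let ψ : L.BoundedFormula Empty k :=
    ((&i).bdEqual (&j)) ⟹ ∼(P.boundedFormula fun l => (&l))
  have hψ : ψ.IsQF :=
    (BoundedFormula.IsAtomic.equal _ _).isQF.imp (BoundedFormula.IsAtomic.rel _ _).isQF.not
  have hreal : ∀ (W : Type) (S : L.Structure W), @Sentence.Realize L W S ψ.alls ↔
      ∀ xs : Fin k → W, xs i = xs j → ¬ S.RelMap P xs := by
    intro W S
    letI := S
    rw [Sentence.Realize, BoundedFormula.realize_alls]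
    apply forall_congr'
    intro xs
    simp only [ψ, BoundedFormula.realize_imp, BoundedFormula.realize_bdEqual, Term.realize_var,
      Sum.elim_inr, BoundedFormula.realize_not, BoundedFormula.realize_rel]
    rfl
  have hmem : ψ.alls ∈ theoryOf N := by
    refine ⟨isUniversal_alls _ hψ.isUniversal, fun W _ x _ => (hreal W (rel N x)).2 ?_⟩
    rintro xs h ⟨hinj, -⟩
    exact hne (hinj h)
  have h1 : @Sentence.Realize L V M ψ.alls :=
    @FirstOrder.Language.Theory.realize_sentence_of_mem L V M (theoryOf N) hM _ hmem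
  exact (hreal V M).1 h1 v hij hv

end Pool.Agent.K6.H41.BT.Logic
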